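import Pool.Agent.Helper40.Nm.Goals

/-!
The norm is surjective on equivariant homomorphisms from a lattice.
-/

namespace Pool.Agent.Helper53.Nm

open Pool.Agent.Helper40.Nm

section Rep

variable {G V : Type} [Group G] [AddCommGroup V] (ρ : G →* AddMonoid.End V)

/-- cocycles -/
def Cocyc (w : G → V) : Prop := ∀ γ δ, w (γ * δ) = w γ + ρ γ (w δ)

/-- coboundaries -/
def Cobd (w : G → V) : Prop := ∃ d, ∀ γ, w γ = ρ γ d - d

theorem rmul (γ δ : G) (v : V) : ρ (γ * δ) v = ρ γ (ρ δ v) := by rw [map_mul]; rfl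

theorem rone (v : V) : ρ 1 v = v := by rw [map_one]; rfl

theorem rinv (γ : G) (v : V) : ρ γ⁻¹ (ρ γ v) = v := by rw [← rmul, inv_mul_cancel, rone]

theorem rinv' (γ : G) (v : V) : ρ γ (ρ γ⁻¹ v) = v := by rw [← rmul, mul_inv_cancel, rone]

variable [Fintype G]

/-- a norm -/
def nrm (v : V) : V := ∑ γ : G, ρ γ v

theorem nrm_inv (γ : G) (v : V) : ρ γ (nrm ρ v) = nrm ρ v := by
  unfold nrm
  rw [map_sum, ← Equiv.sum_comp (Equiv.mulLeft γ) (fun δ => ρ δ v)]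
  refine Finset.sum_congr rfl fun δ _ => ?_
  simp only [Equiv.coe_mulLeft]
  rw [rmul]

theorem A1 (pr : V →+ V) (hpr : ∀ v, ∑ γ : G, ρ γ (pr (ρ γ⁻¹ v)) = v) (w : G → V)
    (hw : Cocyc ρ w) : Cobd ρ w := by
  refine ⟨-(∑ γ, ρ γ (pr (ρ γ⁻¹ (w γ)))), fun δ => ?_⟩
  have h1 : ρ δ (∑ γ, ρ γ (pr (ρ γ⁻¹ (w γ)))) = ∑ γ, ρ γ (pr (ρ γ⁻¹ (w γ - w δ))) := by
    rw [map_sum]
    rw [← Equiv.sum_comp (Equiv.mulLeft δ) (fun γ => ρ γ (pr (ρ γ⁻¹ (w γ - w δ))))]
    refine Finset.sum_congr rfl fun γ _ => ?_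
    simp only [Equiv.coe_mulLeft]
    rw [hw δ γ, add_sub_cancel_left, rmul, mul_inv_rev, rmul ρ γ⁻¹ δ⁻¹, rinv]
  have h2 : ∑ γ, ρ γ (pr (ρ γ⁻¹ (w γ - w δ))) = (∑ γ, ρ γ (pr (ρ γ⁻¹ (w γ)))) - w δ := by
    simp only [map_sub, Finset.sum_sub_distrib]
    rw [hpr]
  rw [map_neg, h1, h2]
  abel

theorem A2 (pr : V →+ V) (hpr : ∀ v, ∑ γ : G, ρ γ (pr (ρ γ⁻¹ v)) = v) (z : G → G → V)
    (hz : ∀ γ δ ε, ρ γ (z δ ε) - z (γ * δ) ε + z γ (δ * ε) = z γ δ) :
    ∃ v : G → V, ∀ γ δ, z γ δ = ρ γ (v δ) - v (γ * δ) + v γ := by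
  refine ⟨fun γ => ∑ ε, ρ (γ * ε) (pr (ρ (γ * ε)⁻¹ (z γ ε))), fun γ δ => ?_⟩
  have h1 : ρ γ (∑ ε, ρ (δ * ε) (pr (ρ (δ * ε)⁻¹ (z δ ε)))) =
      ∑ ε, ρ (γ * δ * ε) (pr (ρ (γ * δ * ε)⁻¹ (ρ γ (z δ ε)))) := by
    rw [map_sum]
    refine Finset.sum_congr rfl fun ε _ => ?_
    rw [mul_assoc γ δ ε, rmul ρ γ (δ * ε), mul_inv_rev γ (δ * ε), rmul ρ (δ * ε)⁻¹ γ⁻¹, rinv]
  have h2 : ∑ ε, ρ (γ * ε) (pr (ρ (γ * ε)⁻¹ (z γ ε))) =
      ∑ ε, ρ (γ * δ * ε) (pr (ρ (γ * δ * ε)⁻¹ (z γ (δ * ε)))) := by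
    rw [← Equiv.sum_comp (Equiv.mulLeft δ) (fun ε => ρ (γ * ε) (pr (ρ (γ * ε)⁻¹ (z γ ε))))]
    refine Finset.sum_congr rfl fun ε _ => ?_
    simp only [Equiv.coe_mulLeft]
    rw [← mul_assoc]
  have h3 : z γ δ = ∑ ε, ρ (γ * δ * ε) (pr (ρ (γ * δ * ε)⁻¹ (z γ δ))) := by
    have := Equiv.sum_comp (Equiv.mulLeft (γ * δ)) (fun ε => ρ ε (pr (ρ ε⁻¹ (z γ δ))))
    simp only [Equiv.coe_mulLeft] at this
    rw [this, hpr]
  simp only
  rw [h1, h2]
  conv_lhs => rw [h3]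
  rw [← Finset.sum_sub_distrib, ← Finset.sum_add_distrib]
  refine Finset.sum_congr rfl fun ε _ => ?_
  rw [← hz γ δ ε]
  simp only [map_sub, map_add]

/-- multiples of cocycles by the order of the group -/
theorem card_cobd (w : G → V) (hw : Cocyc ρ w) :
    Cobd ρ (fun γ => (Fintype.card G) • w γ) := by
  refine ⟨-(∑ δ, w δ), fun γ => ?_⟩
  have h1 : ∑ δ, w δ = Fintype.card G • w γ + ρ γ (∑ δ, w δ) := by
    rw [map_sum, ← Equiv.sum_comp (Equiv.mulLeft γ) w]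
    simp only [Equiv.coe_mulLeft]
    simp only [hw γ]
    rw [Finset.sum_add_distrib, Finset.sum_const, Finset.card_univ]
  simp only
  rw [map_neg]
  have h2 : Fintype.card G • w γ = ∑ δ, w δ - ρ γ (∑ δ, w δ) := by
    rw [eq_sub_iff_add_eq, ← h1]
  rw [h2]; abel

end Rep

section Mod

variable {G R : Type} [Group G] [AddCommGroup R] (ρ : G →* AddMonoid.End R) (p : ℕ)

/-- the multiples of `p` -/
abbrev mulp (R : Type) [AddCommGroup R] (p : ℕ) : AddSubgroup R :=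
  (nsmulAddMonoidHom (α := R) p).range

/-- the quotient by `p` -/
abbrev Quo (R : Type) [AddCommGroup R] (p : ℕ) : Type := R ⧸ mulp R p

theorem mem_mulp {r : R} : r ∈ mulp R p ↔ ∃ s : R, p • s = r := Iff.rfl

/-- the induced action on the quotient -/
def qRep : G →* AddMonoid.End (Quo R p) where
  toFun γ := QuotientAddGroup.map (mulp R p) (mulp R p) (ρ γ) (by
    rintro _ ⟨s, rfl⟩
    exact ⟨ρ γ s, (map_nsmul (ρ γ) p s).symm⟩)
  map_one' := by
    apply AddMonoidHom.ext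
    intro x
    obtain ⟨r, rfl⟩ := QuotientAddGroup.mk'_surjective (mulp R p) x
    show QuotientAddGroup.mk' (mulp R p) (ρ 1 r) = QuotientAddGroup.mk' (mulp R p) r
    rw [rone]
  map_mul' γ δ := by
    apply AddMonoidHom.ext
    intro x
    obtain ⟨r, rfl⟩ := QuotientAddGroup.mk'_surjective (mulp R p) x
    show QuotientAddGroup.mk' (mulp R p) (ρ (γ * δ) r) =
      QuotientAddGroup.mk' (mulp R p) (ρ γ (ρ δ r))
    rw [rmul]

theorem qRep_mk (γ : G) (r : R) :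
    qRep ρ p γ (QuotientAddGroup.mk' (mulp R p) r) = QuotientAddGroup.mk' (mulp R p) (ρ γ r) := rfl

theorem quo_smul (v : Quo R p) : p • v = 0 := by
  obtain ⟨r, rfl⟩ := QuotientAddGroup.mk'_surjective (mulp R p) v
  rw [← map_nsmul]
  exact (QuotientAddGroup.eq_zero_iff _).mpr ⟨r, rfl⟩

theorem mk_eq_iff (r s : R) : QuotientAddGroup.mk' (mulp R p) r = QuotientAddGroup.mk' (mulp R p) s ↔
    ∃ t : R, r = s + p • t := by
  rw [QuotientAddGroup.mk'_apply, QuotientAddGroup.mk'_apply, QuotientAddGroup.eq]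
  constructor
  · rintro ⟨t, ht⟩
    refine ⟨-t, ?_⟩
    have h : p • t = -r + s := ht
    rw [smul_neg, h]; abel
  · rintro ⟨t, ht⟩
    refine ⟨-t, ?_⟩
    show p • (-t) = -r + s
    rw [ht, smul_neg]; abel

end Mod

section HomRep

variable {G R : Type} [Group G] [AddCommGroup R] (ρ : G →* AddMonoid.End R) {g : ℕ}
  (act : G →* AddMonoid.End (Lat g))

/-- the action on homomorphisms -/
def hRep : G →* AddMonoid.End (Lat g →+ R) where
  toFun γ :=
    { toFun := fun h => AddMonoidHom.comp (ρ γ) (AddMonoidHom.comp h (act γ⁻¹))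
      map_zero' := by ext x; simp
      map_add' := by intro a b; ext x; simp }
  map_one' := by
    apply AddMonoidHom.ext
    intro h
    apply AddMonoidHom.ext
    intro x
    show ρ 1 (h (act 1⁻¹ x)) = h x
    rw [rone, inv_one, map_one]; rfl
  map_mul' γ δ := by
    apply AddMonoidHom.ext
    intro h
    apply AddMonoidHom.ext
    intro x
    show ρ (γ * δ) (h (act (γ * δ)⁻¹ x)) = ρ γ (ρ δ (h (act δ⁻¹ (act γ⁻¹ x))))
    rw [rmul, mul_inv_rev, map_mul]; rfl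

theorem hRep_apply (γ : G) (h : Lat g →+ R) (x : Lat g) :
    hRep ρ act γ h x = ρ γ (h (act γ⁻¹ x)) := rfl

/-- lifting of homomorphisms from a lattice -/
theorem lift_hom {A B : Type} [AddCommGroup A] [AddCommGroup B] (q : A →+ B)
    (hq : Function.Surjective q) (h : Lat g →+ B) : ∃ h' : Lat g →+ A, ∀ x, q (h' x) = h x := by
  obtain ⟨h', hh'⟩ := Module.projective_lifting_property q.toIntLinearMap h.toIntLinearMap hq
  refine ⟨h'.toAddMonoidHom, fun x => ?_⟩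
  exact LinearMap.congr_fun hh' x

variable [Fintype G]

theorem nrm_apply (h : Lat g →+ R) (x : Lat g) :
    nrm (hRep ρ act) h x = ∑ γ : G, ρ γ (h (act γ⁻¹ x)) := by
  unfold nrm
  rw [AddMonoidHom.finsetSum_apply]
  rfl

/-- an equivariant homomorphism to a module with a weak splitting is a norm -/
theorem eq_norm (pr : R →+ R) (hpr : ∀ v, ∑ γ : G, ρ γ (pr (ρ γ⁻¹ v)) = v) (Θ : Lat g →+ R)
    (hΘ : ∀ (γ : G) (x : Lat g), ρ γ (Θ x) = Θ (act γ x)) (x : Lat g) :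
    ∑ γ : G, ρ γ (pr (Θ (act γ⁻¹ x))) = Θ x := by
  rw [← hpr (Θ x)]
  refine Finset.sum_congr rfl fun γ _ => ?_
  rw [hΘ γ⁻¹ x]

/-- From invariants modulo `p` to invariants. -/
theorem inv_lift (p : ℕ) (pr : Quo R p →+ Quo R p)
    (hpr : ∀ v, ∑ γ : G, qRep ρ p γ (pr (qRep ρ p γ⁻¹ v)) = v)
    (htf : ∀ r : R, p • r = 0 → r = 0) (w : Lat g →+ R)
    (hw : ∀ (γ : G) (x : Lat g), ∃ t, ρ γ (w x) = w (act γ x) + p • t) :
    ∃ w1 w2 : Lat g →+ R, (∀ (γ : G) (x : Lat g), ρ γ (w1 x) = w1 (act γ x)) ∧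
      ∀ x, w x = w1 x + p • w2 x := by
  obtain ⟨Θ, hΘ⟩ : ∃ Θ : Lat g →+ Quo R p, Θ = (QuotientAddGroup.mk' (mulp R p)).comp w :=
    ⟨_, rfl⟩
  have hΘx : ∀ x, Θ x = QuotientAddGroup.mk' (mulp R p) (w x) := fun x => by rw [hΘ]; rfl
  have hΘe : ∀ (γ : G) (x : Lat g), qRep ρ p γ (Θ x) = Θ (act γ x) := by
    intro γ x
    rw [hΘx, hΘx, qRep_mk, mk_eq_iff]
    exact hw γ x
  obtain ⟨h, hh⟩ := lift_hom (QuotientAddGroup.mk' (mulp R p))
    (QuotientAddGroup.mk'_surjective (mulp R p)) (pr.comp Θ)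
  have hN : ∀ x, QuotientAddGroup.mk' (mulp R p) (nrm (hRep ρ act) h x) =
      QuotientAddGroup.mk' (mulp R p) (w x) := by
    intro x
    rw [nrm_apply, map_sum, ← hΘx, ← eq_norm (qRep ρ p) act pr hpr Θ hΘe x]
    refine Finset.sum_congr rfl fun γ _ => ?_
    rw [← qRep_mk, hh]; rfl
  have hinv : ∀ (γ : G) (x : Lat g), ρ γ (nrm (hRep ρ act) h x) =
      nrm (hRep ρ act) h (act γ x) := by
    intro γ x
    have h1 := nrm_inv (hRep ρ act) γ h
    have h2 : ρ γ (nrm (hRep ρ act) h (act γ⁻¹ (act γ x))) = nrm (hRep ρ act) h (act γ x) := by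
      rw [← hRep_apply, h1]
    rw [rinv] at h2
    exact h2
  have hdiv : ∀ x, ∃ t, w x = nrm (hRep ρ act) h x + p • t := fun x =>
    (mk_eq_iff p _ _).mp (hN x).symm
  choose t ht using hdiv
  refine ⟨nrm (hRep ρ act) h, AddMonoidHom.mk' t ?_, hinv, ht⟩
  intro a b
  have h1 := ht (a + b)
  rw [map_add, map_add, ht a, ht b] at h1
  have h2 : p • (t (a + b) - (t a + t b)) = 0 := by
    rw [smul_sub, smul_add]
    have h3 : nrm (hRep ρ act) h a + p • t a + (nrm (hRep ρ act) h b + p • t b) -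
      (nrm (hRep ρ act) h a + nrm (hRep ρ act) h b + p • t (a + b)) = 0 := by
      rw [h1]; abel
    rw [← neg_eq_zero, ← h3]; abel
  exact sub_eq_zero.mp (htf _ h2)

/-- division by `p` -/
theorem cobd_div (p : ℕ) (pr : Quo R p →+ Quo R p)
    (hpr : ∀ v, ∑ γ : G, qRep ρ p γ (pr (qRep ρ p γ⁻¹ v)) = v)
    (htf : ∀ r : R, p • r = 0 → r = 0) (c : G → (Lat g →+ R))
    (hc : Cobd (hRep ρ act) (fun γ => p • c γ)) : Cobd (hRep ρ act) c := by
  obtain ⟨w, hw⟩ := hc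
  have hw' : ∀ (γ : G) (x : Lat g), ∃ t, ρ γ (w x) = w (act γ x) + p • t := by
    intro γ x
    refine ⟨c γ (act γ x), ?_⟩
    have h1 := DFunLike.congr_fun (hw γ) (act γ x)
    simp only at h1
    rw [AddMonoidHom.sub_apply, hRep_apply, rinv] at h1
    have h2 : (p • c γ) (act γ x) = p • c γ (act γ x) := rfl
    rw [← h2, h1]; abel
  obtain ⟨w1, w2, h1, h2⟩ := inv_lift ρ act p pr hpr htf w hw'
  refine ⟨w2, fun γ => ?_⟩
  apply AddMonoidHom.ext
  intro x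
  rw [AddMonoidHom.sub_apply, hRep_apply]
  have h3 := DFunLike.congr_fun (hw γ) x
  simp only at h3
  rw [AddMonoidHom.sub_apply, hRep_apply, h2, h2 x, map_add, h1 γ, rinv', map_nsmul] at h3
  have h4 : (p • c γ) x = p • c γ x := rfl
  rw [h4] at h3
  have h5 : p • (c γ x - (ρ γ (w2 (act γ⁻¹ x)) - w2 x)) = 0 := by
    rw [smul_sub, h3, smul_sub]; abel
  exact sub_eq_zero.mp (htf _ h5)

/-- the first cohomology of the homomorphisms vanishes -/
theorem hom_cobd (p : ℕ) [Fact p.Prime] (hG : IsPGroup p G) (pr : Quo R p →+ Quo R p)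
    (hpr : ∀ v, ∑ γ : G, qRep ρ p γ (pr (qRep ρ p γ⁻¹ v)) = v)
    (htf : ∀ r : R, p • r = 0 → r = 0) (c : G → (Lat g →+ R))
    (hc : Cocyc (hRep ρ act) c) : Cobd (hRep ρ act) c := by
  obtain ⟨n, hn⟩ := IsPGroup.iff_card.mp hG
  have hcard : Fintype.card G = p ^ n := by rw [← Nat.card_eq_fintype_card, hn]
  have key : ∀ k : ℕ, Cobd (hRep ρ act) (fun γ => (p ^ k) • c γ) → Cobd (hRep ρ act) c := by
    intro k
    induction k with
    | zero =>
      intro h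
      simpa using h
    | succ k ih =>
      intro h
      apply ih
      apply cobd_div ρ act p pr hpr htf
      have : (fun γ => p • (p ^ k) • c γ) = fun γ => (p ^ (k + 1)) • c γ := by
        funext γ
        rw [smul_smul, pow_succ, mul_comm]
      rw [this]
      exact h
  apply key n
  have h := card_cobd (hRep ρ act) c hc
  rw [hcard] at h
  exact h

end HomRep

section Free

variable {G C : Type} [Group G] [Fintype G] [DecidableEq G] [AddCommGroup C]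
  (ρC : G →* AddMonoid.End C)

/-- the induced module -/
abbrev Ind (G C : Type) [AddCommGroup C] : Type := G → (C →₀ ℤ)

/-- its action -/
def iRep (G C : Type) [Group G] [AddCommGroup C] : G →* AddMonoid.End (Ind G C) where
  toFun γ :=
    { toFun := fun f δ => f (γ⁻¹ * δ)
      map_zero' := rfl
      map_add' := fun _ _ => rfl }
  map_one' := by
    apply AddMonoidHom.ext
    intro f
    funext δ
    show f (1⁻¹ * δ) = f δ
    rw [inv_one, one_mul]
  map_mul' γ δ := by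
    apply AddMonoidHom.ext
    intro f
    funext ε
    show f ((γ * δ)⁻¹ * ε) = f (δ⁻¹ * (γ⁻¹ * ε))
    rw [mul_inv_rev, mul_assoc]

theorem iRep_apply (γ δ : G) (f : Ind G C) : iRep G C γ f δ = f (γ⁻¹ * δ) := rfl

/-- the component at `1` -/
noncomputable def iPr (G C : Type) [Group G] [DecidableEq G] [AddCommGroup C] : Ind G C →+ Ind G C :=
  (AddMonoidHom.single (fun _ : G => (C →₀ ℤ)) 1).comp (Pi.evalAddMonoidHom _ 1)

theorem iPr_apply (f : Ind G C) : iPr G C f = Pi.single 1 (f 1) := rfl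

theorem iPr_sum (f : Ind G C) : ∑ γ : G, iRep G C γ (iPr G C (iRep G C γ⁻¹ f)) = f := by
  funext δ
  rw [Finset.sum_apply, Finset.sum_eq_single δ]
  · rw [iRep_apply, iPr_apply, inv_mul_cancel, Pi.single_eq_same, iRep_apply, inv_inv, mul_one]
  · intro γ _ hγ
    rw [iRep_apply, iPr_apply, Pi.single_eq_of_ne]
    intro h
    apply hγ
    rw [inv_mul_eq_one] at h
    exact h
  · intro h
    exact absurd (Finset.mem_univ _) h

/-- the projection -/
noncomputable def iPi : Ind G C →+ C :=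
  ∑ δ : G, AddMonoidHom.comp (ρC δ) (AddMonoidHom.comp
    (Finsupp.linearCombination ℤ (id : C → C)).toAddMonoidHom (Pi.evalAddMonoidHom _ δ))

theorem iPi_apply (f : Ind G C) :
    iPi ρC f = ∑ δ : G, ρC δ (Finsupp.linearCombination ℤ (id : C → C) (f δ)) := by
  unfold iPi
  rw [AddMonoidHom.finsetSum_apply]
  rfl

theorem iPi_equi (γ : G) (f : Ind G C) : iPi ρC (iRep G C γ f) = ρC γ (iPi ρC f) := by
  rw [iPi_apply, iPi_apply, map_sum,
    ← Equiv.sum_comp (Equiv.mulLeft γ) (fun δ => ρC δ (Finsupp.linearCombination ℤ (id : C → C)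
      (iRep G C γ f δ)))]
  refine Finset.sum_congr rfl fun δ _ => ?_
  simp only [Equiv.coe_mulLeft]
  rw [iRep_apply, inv_mul_cancel_left, rmul]

theorem iPi_surj : Function.Surjective (iPi ρC) := by
  intro c
  refine ⟨Pi.single 1 (Finsupp.single c 1), ?_⟩
  rw [iPi_apply, Finset.sum_eq_single 1]
  · rw [Pi.single_eq_same, rone]
    simp
  · intro δ _ hδ
    rw [Pi.single_eq_of_ne hδ]
    simp
  · intro h
    exact absurd (Finset.mem_univ _) h

theorem ind_tf {p : ℕ} (hp : p ≠ 0) (f : Ind G C) (h : p • f = 0) : f = 0 := by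
  funext δ
  ext c
  have h1 := DFunLike.congr_fun (congrFun h δ) c
  simp only [Pi.smul_apply, Finsupp.coe_smul, nsmul_eq_mul, Pi.zero_apply, Finsupp.coe_zero,
    mul_eq_zero, Nat.cast_eq_zero] at h1
  rcases h1 with h2 | h2
  · exact absurd h2 hp
  · exact h2

/-- the kernel -/
noncomputable abbrev Ker : AddSubgroup (Ind G C) := (iPi ρC).ker

/-- its action -/
noncomputable def kRep : G →* AddMonoid.End (Ker ρC) where
  toFun γ :=
    { toFun := fun r => ⟨iRep G C γ r.1, by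
        have := r.2
        rw [AddMonoidHom.mem_ker] at this ⊢
        rw [iPi_equi, this, map_zero]⟩
      map_zero' := by
        apply Subtype.ext
        exact map_zero (iRep G C γ)
      map_add' := fun a b => by
        apply Subtype.ext
        exact map_add (iRep G C γ) a.1 b.1 }
  map_one' := by
    apply AddMonoidHom.ext
    intro r
    apply Subtype.ext
    exact rone (iRep G C) r.1
  map_mul' γ δ := by
    apply AddMonoidHom.ext
    intro r
    apply Subtype.ext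
    exact rmul (iRep G C) γ δ r.1

theorem kRep_coe (γ : G) (r : Ker ρC) : (kRep ρC γ r : Ind G C) = iRep G C γ r.1 := rfl

theorem ker_tf {p : ℕ} (hp : p ≠ 0) (r : Ker ρC) (h : p • r = 0) : r = 0 := by
  apply Subtype.ext
  apply ind_tf hp
  have := congrArg (Subtype.val) h
  exact this

/-- (B) -/
theorem ker_cobd (h1 : ∀ c : C, (∀ γ, ρC γ c = c) → ∃ d, ∑ γ, ρC γ d = c) (w : G → Ker ρC)
    (hw : Cocyc (kRep ρC) w) : Cobd (kRep ρC) w := by
  have hw' : Cocyc (iRep G C) (fun γ => (w γ : Ind G C)) := by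
    intro γ δ
    have := congrArg (Subtype.val) (hw γ δ)
    exact this
  obtain ⟨f, hf⟩ := A1 (iRep G C) (iPr G C) iPr_sum _ hw'
  have hinv : ∀ γ, ρC γ (iPi ρC f) = iPi ρC f := by
    intro γ
    rw [← iPi_equi]
    have h2 : iPi ρC (w γ : Ind G C) = 0 := (w γ).2
    have h3 : (w γ : Ind G C) = iRep G C γ f - f := hf γ
    rw [h3, map_sub] at h2
    exact sub_eq_zero.mp h2
  obtain ⟨d, hd⟩ := h1 _ hinv
  obtain ⟨f1, hf1⟩ := iPi_surj ρC d
  have hker : iPi ρC (f - nrm (iRep G C) f1) = 0 := by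
    rw [map_sub]
    have : iPi ρC (nrm (iRep G C) f1) = iPi ρC f := by
      unfold nrm
      rw [map_sum, ← hd]
      refine Finset.sum_congr rfl fun γ _ => ?_
      rw [iPi_equi, hf1]
    rw [this, sub_self]
  refine ⟨⟨f - nrm (iRep G C) f1, hker⟩, fun γ => ?_⟩
  apply Subtype.ext
  show (w γ : Ind G C) = iRep G C γ (f - nrm (iRep G C) f1) - (f - nrm (iRep G C) f1)
  have h3 : (w γ : Ind G C) = iRep G C γ f - f := hf γ
  rw [h3, map_sub, nrm_inv]
  abel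

/-- (C) -/
theorem quo_cobd {p : ℕ} (hp : p ≠ 0)
    (h1 : ∀ c : C, (∀ γ, ρC γ c = c) → ∃ d, ∑ γ, ρC γ d = c)
    (h2 : ∀ c : G → C, Cocyc ρC c → Cobd ρC c) (c : G → Quo (Ker ρC) p)
    (hc : Cocyc (qRep (kRep ρC) p) c) : Cobd (qRep (kRep ρC) p) c := by
  have hs := QuotientAddGroup.mk'_surjective (mulp (Ker ρC) p)
  choose b hb using fun γ => hs (c γ)
  have hz : ∀ γ δ, ∃ z : Ker ρC, kRep ρC γ (b δ) + b γ = b (γ * δ) + p • z := by
    intro γ δ
    rw [← mk_eq_iff, map_add, ← qRep_mk, hb, hb, hb, hc γ δ, add_comm]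
  choose z hz using hz
  have hzF : ∀ γ δ, iRep G C γ (b δ).1 + (b γ).1 = (b (γ * δ)).1 + p • (z γ δ).1 := by
    intro γ δ
    have := congrArg (Subtype.val) (hz γ δ)
    exact this
  have hzc : ∀ γ δ ε, iRep G C γ (z δ ε).1 - (z (γ * δ) ε).1 + (z γ (δ * ε)).1 = (z γ δ).1 := by
    intro γ δ ε
    have key : p • (iRep G C γ (z δ ε).1 - (z (γ * δ) ε).1 + (z γ (δ * ε)).1 - (z γ δ).1) = 0 := by
      have e1 : p • (iRep G C γ (z δ ε).1) = iRep G C γ (p • (z δ ε).1) := (map_nsmul _ _ _).symm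
      have e2 : p • (z δ ε).1 = iRep G C δ (b ε).1 + (b δ).1 - (b (δ * ε)).1 := by
        rw [hzF δ ε]; abel
      have e3 : p • (z (γ * δ) ε).1 = iRep G C (γ * δ) (b ε).1 + (b (γ * δ)).1 -
          (b (γ * δ * ε)).1 := by
        rw [hzF (γ * δ) ε]; abel
      have e4 : p • (z γ (δ * ε)).1 = iRep G C γ (b (δ * ε)).1 + (b γ).1 -
          (b (γ * (δ * ε))).1 := by
        rw [hzF γ (δ * ε)]; abel
      have e5 : p • (z γ δ).1 = iRep G C γ (b δ).1 + (b γ).1 - (b (γ * δ)).1 := by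
        rw [hzF γ δ]; abel
      rw [smul_sub, smul_add, smul_sub, e1, e2, e3, e4, e5, map_sub, map_add, rmul, mul_assoc]
      abel
    exact sub_eq_zero.mp (ind_tf hp _ key)
  obtain ⟨v, hv⟩ := A2 (iRep G C) (iPr G C) iPr_sum (fun γ δ => (z γ δ).1) hzc
  have hcoc : Cocyc ρC (fun γ => iPi ρC (v γ)) := by
    intro γ δ
    have e1 : iPi ρC (z γ δ).1 = 0 := (z γ δ).2
    have e2 : (z γ δ).1 = iRep G C γ (v δ) - v (γ * δ) + v γ := hv γ δ
    rw [e2, map_add, map_sub, iPi_equi] at e1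
    have e3 : iPi ρC (v (γ * δ)) = iPi ρC (v γ) + ρC γ (iPi ρC (v δ)) -
        (ρC γ (iPi ρC (v δ)) - iPi ρC (v (γ * δ)) + iPi ρC (v γ)) := by abel
    rw [e1, sub_zero] at e3
    exact e3
  obtain ⟨c0, hc0⟩ := h2 _ hcoc
  obtain ⟨f0, hf0⟩ := iPi_surj ρC c0
  have hv'ker : ∀ γ, iPi ρC (v γ - (iRep G C γ f0 - f0)) = 0 := by
    intro γ
    have e1 : iPi ρC (v γ) = ρC γ c0 - c0 := hc0 γ
    rw [map_sub, map_sub, iPi_equi, hf0, e1, sub_self]
  obtain ⟨v', hv'⟩ : ∃ v' : G → Ker ρC, ∀ γ, (v' γ : Ind G C) = v γ - (iRep G C γ f0 - f0) :=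
    ⟨fun γ => ⟨_, hv'ker γ⟩, fun _ => rfl⟩
  have hcc : Cocyc (kRep ρC) (fun γ => b γ - p • v' γ) := by
    intro γ δ
    apply Subtype.ext
    show (b (γ * δ)).1 - p • (v' (γ * δ)).1 =
      ((b γ).1 - p • (v' γ).1) + iRep G C γ ((b δ).1 - p • (v' δ).1)
    rw [hv', hv', hv', map_sub, map_nsmul, map_sub, map_sub]
    have e1 := hzF γ δ
    have e2 : (z γ δ).1 = iRep G C γ (v δ) - v (γ * δ) + v γ := hv γ δ
    have e3 : (b (γ * δ)).1 = iRep G C γ (b δ).1 + (b γ).1 - p • (z γ δ).1 := by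
      rw [e1]; abel
    rw [e3, e2, rmul]
    simp only [smul_sub, smul_add]
    abel
  obtain ⟨r, hr⟩ := ker_cobd ρC h1 _ hcc
  refine ⟨QuotientAddGroup.mk' (mulp (Ker ρC) p) r, fun γ => ?_⟩
  rw [qRep_mk, ← map_sub, ← hb, mk_eq_iff]
  refine ⟨v' γ, ?_⟩
  have e1 : b γ - p • v' γ = kRep ρC γ r - r := hr γ
  rw [← e1]; abel

/-- The additive form. -/
theorem coh2_add (hCOH1 : COH1) (p : ℕ) [Fact p.Prime] (hG : IsPGroup p G) {g : ℕ}
    (act : G →* AddMonoid.End (Lat g))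
    (h1 : ∀ c : C, (∀ γ, ρC γ c = c) → ∃ d, ∑ γ, ρC γ d = c)
    (h2 : ∀ c : G → C, Cocyc ρC c → Cobd ρC c) (ψ : Lat g →+ C)
    (hψ : ∀ (γ : G) (x : Lat g), ρC γ (ψ x) = ψ (act γ x)) :
    ∃ f : Lat g →+ C, ∀ x, ∑ γ : G, ρC γ (f (act γ⁻¹ x)) = ψ x := by
  have hp : p ≠ 0 := (Fact.out : p.Prime).ne_zero
  obtain ⟨pr, hpr⟩ : ∃ pr : Quo (Ker ρC) p →+ Quo (Ker ρC) p, ∀ v,
      ∑ γ : G, qRep (kRep ρC) p γ (pr (qRep (kRep ρC) p γ⁻¹ v)) = v := by
    let _ : DistribMulAction G (Quo (Ker ρC) p) :=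
      DistribMulAction.compHom (Quo (Ker ρC) p) (qRep (kRep ρC) p)
    exact hCOH1 p G (Quo (Ker ρC) p) hG (quo_smul p) (quo_cobd ρC hp h1 h2)
  have hW := hom_cobd (kRep ρC) act p hG pr hpr (fun r => ker_tf ρC hp r)
  obtain ⟨Ψ, hΨ⟩ := lift_hom (iPi ρC) (iPi_surj ρC) ψ
  have hker : ∀ (γ : G) (x : Lat g), iPi ρC (hRep (iRep G C) act γ Ψ x - Ψ x) = 0 := by
    intro γ x
    rw [map_sub, hRep_apply, iPi_equi, hΨ, hΨ, hψ, rinv' act, sub_self]
  obtain ⟨c, hc⟩ : ∃ c : G → (Lat g →+ Ker ρC), ∀ γ x,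
      (c γ x : Ind G C) = hRep (iRep G C) act γ Ψ x - Ψ x :=
    ⟨fun γ => (hRep (iRep G C) act γ Ψ - Ψ).codRestrict (Ker ρC) (fun x => hker γ x),
      fun _ _ => rfl⟩
  have hcc : Cocyc (hRep (kRep ρC) act) c := by
    intro γ δ
    apply AddMonoidHom.ext
    intro x
    apply Subtype.ext
    show (c (γ * δ) x : Ind G C) = (c γ x : Ind G C) + iRep G C γ (c δ (act γ⁻¹ x) : Ind G C)
    rw [hc, hc, hc, rmul, hRep_apply, map_sub, hRep_apply _ _ γ Ψ]
    abel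
  obtain ⟨ρ, hρ⟩ := hW c hcc
  obtain ⟨Θ, hΘ⟩ : ∃ Θ : Lat g →+ Ind G C, ∀ x, Θ x = Ψ x - (ρ x : Ind G C) :=
    ⟨Ψ - (Ker ρC).subtype.comp ρ, fun _ => rfl⟩
  have hΘe : ∀ (γ : G) (x : Lat g), iRep G C γ (Θ x) = Θ (act γ x) := by
    intro γ x
    have e1 : (c γ (act γ x) : Ind G C) = iRep G C γ (ρ (act γ⁻¹ (act γ x)) : Ind G C) -
        (ρ (act γ x) : Ind G C) := by
      have := congrArg Subtype.val (DFunLike.congr_fun (hρ γ) (act γ x))
      exact this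
    rw [hc, hRep_apply, rinv] at e1
    rw [hΘ, hΘ, map_sub]
    have e2 : iRep G C γ (Ψ x) - Ψ (act γ x) -
      (iRep G C γ (ρ x : Ind G C) - (ρ (act γ x) : Ind G C)) = 0 := by
      rw [e1, sub_self]
    rw [← sub_eq_zero, ← e2]
    abel
  refine ⟨(iPi ρC).comp ((iPr G C).comp Θ), fun x => ?_⟩
  have e1 := eq_norm (iRep G C) act (iPr G C) iPr_sum Θ hΘe x
  have e2 : iPi ρC (Θ x) = ψ x := by
    rw [hΘ, map_sub, hΨ]
    have : iPi ρC (ρ x : Ind G C) = 0 := (ρ x).2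
    rw [this, sub_zero]
  rw [← e2, ← e1, map_sum]
  refine Finset.sum_congr rfl fun γ _ => ?_
  rw [iPi_equi]; rfl

end Free

theorem coh2 : COH1 → COH2 := by
  classical
  intro hCOH1 p _ G _ _ C _ _ g act hG h1 h2 ψ hψ
  obtain ⟨ρC, hρC⟩ : ∃ ρC : G →* AddMonoid.End (Additive C), ∀ γ c,
      ρC γ c = Additive.ofMul (γ • c.toMul) :=
    ⟨{ toFun := fun γ =>
        { toFun := fun c => Additive.ofMul (γ • c.toMul)
          map_zero' := by simp
          map_add' := by intro a b; simp [smul_mul'] }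
       map_one' := by
        apply AddMonoidHom.ext
        intro c
        show Additive.ofMul ((1 : G) • c.toMul) = c
        rw [one_smul]; rfl
       map_mul' := by
        intro γ δ
        apply AddMonoidHom.ext
        intro c
        show Additive.ofMul ((γ * δ) • c.toMul) = Additive.ofMul (γ • (δ • c.toMul))
        rw [mul_smul] }, fun _ _ => rfl⟩
  obtain ⟨ψ', hψ'⟩ : ∃ ψ' : Lat g →+ Additive C, ∀ x,
      ψ' x = Additive.ofMul (ψ (Multiplicative.ofAdd x)) :=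
    ⟨AddMonoidHom.mk' (fun x => Additive.ofMul (ψ (Multiplicative.ofAdd x))) (by
      intro a b
      rw [ofAdd_add, map_mul, ofMul_mul]), fun _ => rfl⟩
  obtain ⟨f, hf⟩ := coh2_add ρC hCOH1 p hG act (by
    intro c hc
    obtain ⟨d, hd⟩ := h1 c.toMul (by
      intro γ
      have := congrArg Additive.toMul (hc γ)
      rw [hρC] at this
      exact this)
    refine ⟨Additive.ofMul d, ?_⟩
    simp only [hρC]
    rw [← ofMul_prod]
    exact congrArg Additive.ofMul hd) (by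
    intro c hc
    obtain ⟨d, hd⟩ := h2 (fun γ => (c γ).toMul) (by
      intro γ δ
      have := congrArg Additive.toMul (hc γ δ)
      rw [hρC] at this
      exact this)
    refine ⟨Additive.ofMul d, fun γ => ?_⟩
    rw [hρC]
    exact congrArg Additive.ofMul (hd γ)) ψ' (by
    intro γ x
    rw [hψ', hψ', hρC]
    exact congrArg Additive.ofMul (hψ γ x))
  refine ⟨{ toFun := fun x => (f (Multiplicative.toAdd x)).toMul
            map_one' := by simp
            map_mul' := by intro a b; simp [toAdd_mul, map_add, toMul_add] }, ?_⟩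
  apply MonoidHom.ext
  intro x
  have h3 := congrArg Additive.toMul (hf (Multiplicative.toAdd x))
  rw [hψ'] at h3
  simp only [hρC] at h3
  rw [← ofMul_prod] at h3
  unfold NT
  rw [MonoidHom.finsetProd_apply]
  exact h3

end Pool.Agent.Helper53.Nm
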